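import Pool.Agent.T2H68.UB.P_EX
import Pool.Agent.T2H68.UB.P_IN
import Pool.Agent.T2H68.UB.P_WG
import Pool.Agent.T2H68.UB.P_WH
import Pool.Agent.T2H68.UB.P_GT
import Pool.Agent.T2H68.UB.P_AC
import Pool.Agent.T2H68.UB.P_OS
import Pool.Agent.T2H68.UB.P_OZ
import Pool.Agent.T2H68.UB.P_TP
import Pool.Agent.T2H68.UB.P_SL
import Pool.Agent.T2H68.UB.P_DB
import Pool.Agent.T2H68.UB.P_MO
import Pool.Agent.T2H68.UB.P_SU
import Pool.Agent.T2H68.UB.P_CT
import Pool.Agent.T2H68.UB.P_MA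
import Pool.Agent.T2H68.UB.P_ML
import Pool.Agent.T2H68.UB.P_AS
import Pool.Agent.T2H68.UB.P_MU
import Pool.Agent.T2H68.UB.P_GD
import Pool.Agent.T2H68.UB.P_BE
import Pool.Agent.T2H68.UB.P_BI
import Pool.Agent.T2H68.UB.P_CF
import Pool.Agent.T2H68.UB.P_LW
import Pool.Agent.T2H68.UB.P_NM

/-!
# MP_ddd117_pr: a continuous adapted multiplicator whose `θ` is not invertible

`Om = C([0,1], ℂ)`, `ℂ = ℝ²`, `X t ω = ω(t)`; `IsW μ`: `μ` is the Wiener measure of the plane;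
`Fil t = σ(X s, s ≤ t)`; `HH = L²([0,1], ℂ)` is the Cameron-Martin space `H` by `h ↦ ḣ`;
`IsRS u ω b`: `b(t) = ∫_0^t u(s)⁻¹ dω(s)` as limit of left Riemann sums, uniformly over all
partitions; `IsMult μ A`: `V ↦ A V` is continuous from `D^∞(Ω, H)` to itself.
-/

set_option autoImplicit false

open MeasureTheory ProbabilityTheory Set Filter
open scoped ENNReal NNReal Topology

namespace Pool.Agent.Results.MP_ddd117_pr.ContinuousNotInvertible

open Pool.Agent.T2H68.UB Pool.Agent.R876.WM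

/-- `L^{∞-0}`, the real functions which are in all the `L^p`, `p < ∞` -/
def Linf0 (μ : Measure Om) (F : Om → ℝ) : Prop := ∀ p : ℝ≥0∞, p ≠ ∞ → MemLp F p μ

/-- The morphism `θ F = F ∘ β` is invertible in `L^{∞-0}`: there is a map `S` from `L^{∞-0}` to
itself with `θ (S F) = F` and `S (θ F) = F` for every `F` in `L^{∞-0}` (almost everywhere). -/
def ThetaInvertible (μ : Measure Om) (β : Om → Om) : Prop :=
  ∃ S : (Om → ℝ) → (Om → ℝ), ∀ F : Om → ℝ, Linf0 μ F →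
    Linf0 μ (S F) ∧ (fun ω => S F (β ω)) =ᵐ[μ] F ∧ S (fun ω => F (β ω)) =ᵐ[μ] F

/-- the core of the result for the process `UU` -/
theorem core (μ : Measure Om) (hμ : IsW μ) :
    (∀ A : Om → (HH →L[ℝ] HH), IsA A → IsMult μ A) ∧
    ∃ β : Om → Om, IsInt μ UU β ∧ μ.map β = μ ∧
      ∃ F : Om → ℝ, Measurable F ∧ (∀ ω, |F ω| ≤ 1) ∧
        ∀ G : Om → ℝ, AEStronglyMeasurable G μ → ¬ (F =ᵐ[μ] fun ω => G (β ω)) := by
  have hIN := pIN μ hμ
  have hWG := pWG μ hμ
  have hWH := pWH μ hμ hWG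
  have hGT := pGT
  have hAC := pAC μ hμ hWH hGT
  have hOS := pOS μ hμ hWH hAC
  have hOZ := pOZ μ hμ hWH hAC
  have hTP := pTP μ hμ hWH hOS hOZ
  have hSL := pSL μ hμ hWH hGT
  have hMO := pMO μ hμ hWH hGT
  have hSU := pSU
  have hCT := pCT hSU
  have hMA := pMA μ hμ hSU hCT
  have hML := pML hSU
  have hAS := pAS μ hμ hSL pDB hMO hMA hML
  have hMU := pMU μ hμ hMA hAS
  have hGD := pGD μ hμ hWH hGT
  have hBE := pBE pEV hSU hCT
  have hBI := pBI hSU
  have hCF := pCF μ hμ hIN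
  have hLW := pLW μ hμ pEV hIN hCF
  have hNM := pNM μ hμ pEV hIN hTP
  refine ⟨hMU, ?_⟩
  obtain ⟨β, hβm, hβ⟩ := hBE
  have hrs : ∀ᵐ ω ∂μ, IsRS (fun t => UU t ω) ω (β ω) := by
    filter_upwards [hIN.2.2, hGD] with ω h0 h1
    exact hβ ω h0 h1
  have hInt : IsInt μ UU β := by
    refine ⟨fun t ω => ?_, fun t _ _ => ?_, hβm, hrs⟩
    · unfold UU
      rw [mul_comm, Complex.norm_exp_ofReal_mul_I]
    · have h1 := hCT.2.1 t
      unfold UU
      exact (by fun_prop : Measurable fun x : ℝ => Complex.exp (Complex.I * (x : ℂ))).comp h1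
  obtain ⟨hlaw, hind⟩ := hLW UU β hInt
  refine ⟨β, hInt, hlaw, ?_⟩
  refine hNM β hβm hlaw ?_ ?_
  · intro K
    have h2 : (0 : ℝ) < 2 ^ K := by positivity
    refine hind (1 / 2 ^ K) (ph K) (by positivity) ?_ (hCT.2.2.2 K)
    rw [div_le_one h2]
    exact one_le_pow₀ (by norm_num)
  · intro K
    filter_upwards [hrs] with ω hω
    exact (hBI ω (β ω) hω).2.2 K

/-- **Negative answer to the question.** The planar Wiener measure exists, and for it there is a process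
`U` with values in the rotations of the plane (complex numbers of modulus `1`), adapted to the
Brownian filtration, all of whose paths `t ↦ U t ω` are continuous, such that multiplication by `U` is a
multiplicator (`X ↦ ∫_0^· U Ẋ ds` is continuous from `D^∞(Ω, H)` to itself), and the path
`β = ∫_0^· U⁻¹ dB` is a Brownian motion for which the morphism `θ F = F ∘ β` is not invertible in
`L^{∞-0}`; there is a bounded measurable `F` which is not a function of `β`. -/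
theorem result :
    (∃ μ : Measure Om, IsW μ) ∧
    ∀ μ : Measure Om, IsW μ → ∃ U : ℝ → Om → ℂ,
      (∀ t ω, ‖U t ω‖ = 1) ∧
      (∀ t : ℝ, 0 ≤ t → t ≤ 1 → Measurable[Fil t] (U t)) ∧
      (∀ ω, Continuous fun t => U t ω) ∧
      (∃ A : Om → (HH →L[ℝ] HH),
        (∀ (ω : Om) (v : HH), (A ω v : ℝ → ℂ) =ᵐ[lb] fun t => U t ω * (v : ℝ → ℂ) t) ∧
        (∀ v : HH, StronglyMeasurable fun ω => A ω v) ∧ IsMult μ A) ∧
      ∃ β : Om → Om, Measurable β ∧ (∀ᵐ ω ∂μ, IsRS (fun t => U t ω) ω (β ω)) ∧ μ.map β = μ ∧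
        ¬ ThetaInvertible μ β ∧
        ∃ F : Om → ℝ, Measurable F ∧ (∀ ω, |F ω| ≤ 1) ∧
          ∀ G : Om → ℝ, AEStronglyMeasurable G μ → ¬ (F =ᵐ[μ] fun ω => G (β ω)) := by
  refine ⟨pEX, fun μ hμ => ?_⟩
  have hprob : IsProbabilityMeasure μ := by
    have := hμ.gauss
    infer_instance
  obtain ⟨hMU, β, hInt, hlaw, F, hFm, hF1, hFG⟩ := core μ hμ
  have hSU := pSU
  have hCT := pCT hSU
  have hMA := pMA μ hμ hSU hCT
  refine ⟨UU, hInt.norm, hInt.adapted, ?_, ?_, β, hInt.meas, hInt.rs, hlaw, ?_, F, hFm, hF1, hFG⟩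
  · intro ω
    have := hCT.1 ω
    unfold UU
    fun_prop
  · obtain ⟨A, hA⟩ := hMA.2.1
    exact ⟨A, hA, (hMA.2.2 A hA).2.1, hMU A hA⟩
  · rintro ⟨S, hS⟩
    have hFL : Linf0 μ F := fun p hp =>
      (memLp_top_of_bound hFm.aestronglyMeasurable 1 (Eventually.of_forall fun ω => by
        rw [Real.norm_eq_abs]; exact hF1 ω)).mono_exponent le_top
    obtain ⟨h1, h2, -⟩ := hS F hFL
    exact hFG (S F) (h1 1 (by simp)).1 h2.symm

end Pool.Agent.Results.MP_ddd117_pr.ContinuousNotInvertible
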